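import Pool.Agent.SMin.Fin

/-!
The smallest singular value of the shifted adjacency matrix of a random regular digraph.
-/

set_option autoImplicit false

open Filter Topology MeasureTheory

namespace Pool.Agent.Results.MP_9a4fa7_pr.SmallestSingularValue

open Pool.Agent.SMin

/-- The adjacency matrices of the `d`-regular digraphs on `n` vertices (loops allowed, no multiple edges): the
`n × n` matrices with entries `0` and `1` in which all row sums and all column sums are `d`. -/
def Adj (n d : ℕ) : Set (Matrix (Fin n) (Fin n) ℂ) :=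
  {A | (∀ i j, A i j = 0 ∨ A i j = 1) ∧ (∀ i, ∑ j, A i j = d) ∧ ∀ j, ∑ i, A i j = d}

/-- The smallest singular value of `B`: the infimum of `‖B x‖₂` over the vectors `x` with `‖x‖₂ = 1`. -/
noncomputable def smin {n : ℕ} (B : Matrix (Fin n) (Fin n) ℂ) : ℝ :=
  ⨅ x : {x : EuclideanSpace ℂ (Fin n) // ‖x‖ = 1}, ‖Matrix.toEuclideanLin B x‖

/-- The probability that `smin (A - z I) ≤ t` for a matrix `A` drawn uniformly from `Adj n d`. -/
noncomputable def prob (n d : ℕ) (z : ℂ) (t : ℝ) : ℝ :=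
  ({A | A ∈ Adj n d ∧ smin (A - z • (1 : Matrix (Fin n) (Fin n) ℂ)) ≤ t}.ncard : ℝ) / ((Adj n d).ncard : ℝ)

/-- the complex matrix of a Boolean matrix -/
private def toC {n : ℕ} (A : Fin n → Fin n → Bool) : Matrix (Fin n) (Fin n) ℂ :=
  Matrix.of (fun i j => if A i j = true then (1 : ℂ) else 0)

private theorem toC_inj {n : ℕ} : Function.Injective (toC : (Fin n → Fin n → Bool) → _) := by
  intro A B h
  funext i j
  have h1 := congrFun (congrFun h i) j
  simp only [toC, Matrix.of_apply] at h1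
  cases hA : A i j <;> cases hB : B i j <;> simp [hA, hB] at h1 ⊢

private theorem adj_eq (n d : ℕ) : Adj n d = toC '' (↑(Reg n d) : Set (Fin n → Fin n → Bool)) := by
  classical
  ext M
  simp only [Adj, Set.mem_setOf_eq, Set.mem_image, Finset.mem_coe, mem_Reg]
  constructor
  · rintro ⟨h1, h2, h3⟩
    refine ⟨fun i j => decide (M i j = 1), ⟨fun i => ?_, fun j => ?_⟩, ?_⟩
    · have h := h2 i
      have h4 : ∑ j, M i j = ∑ j, if M i j = 1 then (1 : ℂ) else 0 :=
        Finset.sum_congr rfl fun j _ => by rcases h1 i j with h | h <;> simp [h]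
      rw [h4, Finset.sum_boole] at h
      simpa using (Nat.cast_injective h : _)
    · have h := h3 j
      have h4 : ∑ i, M i j = ∑ i, if M i j = 1 then (1 : ℂ) else 0 :=
        Finset.sum_congr rfl fun i _ => by rcases h1 i j with h | h <;> simp [h]
      rw [h4, Finset.sum_boole] at h
      simpa using (Nat.cast_injective h : _)
    · ext i j
      simp only [toC, Matrix.of_apply]
      rcases h1 i j with h | h <;> simp [h]
  · rintro ⟨A, ⟨h2, h3⟩, rfl⟩
    refine ⟨fun i j => ?_, fun i => ?_, fun j => ?_⟩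
    · simp only [toC, Matrix.of_apply]
      cases A i j <;> simp
    · simp only [toC, Matrix.of_apply]
      rw [Finset.sum_boole, h2 i]
    · simp only [toC, Matrix.of_apply]
      rw [Finset.sum_boole, h3 j]

private theorem prob_eq (n d : ℕ) (z : ℂ) (t : ℝ) :
    prob n d z t = fr (Reg n d) (fun A => smin (toC A - z • (1 : Matrix (Fin n) (Fin n) ℂ)) ≤ t) := by
  classical
  unfold prob
  rw [fr_def]
  congr 2
  · rw [← Set.ncard_coe_finset, ← Set.ncard_image_of_injective _ toC_inj]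
    congr 1
    rw [adj_eq]
    ext M
    constructor
    · rintro ⟨⟨A, hA, rfl⟩, h⟩
      exact ⟨A, by simpa using ⟨hA, h⟩, rfl⟩
    · rintro ⟨A, hA, rfl⟩
      have h := Finset.mem_filter.1 (Finset.mem_coe.1 hA)
      exact ⟨⟨A, h.1, rfl⟩, h.2⟩
  · rw [adj_eq, Set.ncard_image_of_injective _ toC_inj, Set.ncard_coe_finset]

private theorem adj_nonempty (n d : ℕ) (hd : 1 ≤ d) (hn : d ≤ n) : (Adj n d).Nonempty := by
  haveI : NeZero n := ⟨by omega⟩
  have key : ∑ j : Fin n, (if (j : ℕ) < d then (1 : ℂ) else 0) = d := by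
    rw [Fin.sum_univ_eq_sum_range (fun j => if j < d then (1 : ℂ) else 0) n, Finset.sum_boole]
    congr 1
    have : (Finset.range n).filter (fun j => j < d) = Finset.range d := by
      ext j
      simp only [Finset.mem_filter, Finset.mem_range]
      omega
    rw [this, Finset.card_range]
  refine ⟨Matrix.of fun i j => if ((j - i : Fin n) : ℕ) < d then (1 : ℂ) else 0, fun i j => ?_, fun i => ?_,
    fun j => ?_⟩
  · simp only [Matrix.of_apply]
    split_ifs <;> simp
  · simp only [Matrix.of_apply]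
    rw [← key]
    exact (Equiv.subRight i).sum_comp (fun j : Fin n => if (j : ℕ) < d then (1 : ℂ) else 0)
  · simp only [Matrix.of_apply]
    rw [← key]
    exact (Equiv.subLeft j).sum_comp (fun j : Fin n => if (j : ℕ) < d then (1 : ℂ) else 0)

private theorem small (n : ℕ) (hn : 0 < n) (B : Matrix (Fin n) (Fin n) ℂ) (s t : ℝ) (hst : s < t) (h : smin B ≤ s) :
    ∃ x : Fin n → ℂ, (∑ k, ‖x k‖ ^ 2 = 1) ∧ ∑ k, ‖(Matrix.mulVec B x) k‖ ^ 2 ≤ t ^ 2 := by
  haveI : Nonempty {x : EuclideanSpace ℂ (Fin n) // ‖x‖ = 1} :=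
    ⟨⟨EuclideanSpace.single ⟨0, hn⟩ 1, by simp⟩⟩
  obtain ⟨⟨x, hx⟩, h1⟩ := exists_lt_of_ciInf_lt (h.trans_lt hst)
  refine ⟨x, ?_, ?_⟩
  · rw [← EuclideanSpace.norm_sq_eq, hx, one_pow]
  · have h2 : ∑ k, ‖(Matrix.mulVec B x) k‖ ^ 2 = ‖Matrix.toEuclideanLin B x‖ ^ 2 := by
      rw [EuclideanSpace.norm_sq_eq]
      rfl
    rw [h2]
    exact pow_le_pow_left₀ (norm_nonneg _) h1.le 2

private theorem main (d : ℕ) (hd : 3 ≤ d) (z : ℂ) (hz : ¬ IsIntegral ℤ z) (ε : ℝ) (hε : 0 < ε) :
    Tendsto (fun n : ℕ => prob n d z (Real.exp (-ε * n))) atTop (𝓝 0) := by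
  have hz0 : z ≠ 0 := by
    rintro rfl
    exact hz isIntegral_zero
  have hzd : z ≠ (d : ℂ) := by
    rintro rfl
    exact hz (by simpa using (isIntegral_algebraMap (R := ℤ) (A := ℂ) (x := (d : ℤ))))
  have hinv : ∀ n : ℕ, ∀ A : Fin n → Fin n → Bool, (Mz z A).det ≠ 0 := by
    intro n A h
    apply hz
    let M : Matrix (Fin n) (Fin n) ℤ := Matrix.of (fun i j => if A i j = true then (1 : ℤ) else 0)
    refine ⟨M.charpoly, M.charpoly_monic, ?_⟩
    have h1 : M.charpoly.map (algebraMap ℤ ℂ) = (toC A).charpoly := by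
      rw [← Matrix.charpoly_map]
      congr 1
      ext i j
      simp only [M, toC, Matrix.map_apply, Matrix.of_apply]
      cases A i j <;> simp
    rw [← Polynomial.eval_map, h1, Matrix.eval_charpoly]
    have e : Matrix.scalar (Fin n) z - toC A = -(Mz z A) := by
      unfold Mz toC
      rw [neg_sub]
      congr 1
      rw [Matrix.scalar_apply, ← Matrix.smul_one_eq_diagonal]
    rw [e, Matrix.det_neg, h, mul_zero]
  rw [Metric.tendsto_atTop']
  intro η hη
  have h := Pool.Agent.SMin.final d hd z hz0 hzd hinv (ε / 2) (by positivity) (η / 2) (by positivity)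
  obtain ⟨N, hN⟩ := Filter.eventually_atTop.1 h
  refine ⟨N, fun n hn => ?_⟩
  have hn0 : 0 < n := by omega
  have h1 := hN n hn.le
  rw [Real.dist_eq, sub_zero, prob_eq, abs_of_nonneg (fr_nonneg _ _)]
  have h2 : fr (Reg n d) (fun A => smin (toC A - z • (1 : Matrix (Fin n) (Fin n) ℂ)) ≤ Real.exp (-ε * n)) ≤
      fr (Reg n d) (fun A => ∃ x : Fin n → ℂ, (∑ k, ‖x k‖ ^ 2 = 1) ∧
        ∑ k, ‖(Matrix.mulVec (Mz z A) x) k‖ ^ 2 ≤ Real.exp (-(ε / 2 * (n : ℝ))) ^ 2) := by
    apply fr_mono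
    intro A _ hA
    refine small n hn0 _ _ _ (Real.exp_lt_exp.2 ?_) hA
    have : (0 : ℝ) < n := by exact_mod_cast hn0
    nlinarith
  linarith

/-- The smallest singular value of `A - z I` is exponentially small only with probability tending to `0`, for almost
every `z`, and in fact for every `z` that is not an algebraic integer. -/
theorem result (d : ℕ) (hd : 3 ≤ d) :
    (∀ n, d ≤ n → (Adj n d).Nonempty ∧ (Adj n d).Finite) ∧
    (∀ᵐ z : ℂ, ∀ ε : ℝ, 0 < ε → Tendsto (fun n : ℕ => prob n d z (Real.exp (-ε * n))) atTop (𝓝 0)) ∧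
    ∀ z : ℂ, ¬ IsIntegral ℤ z → ∀ ε : ℝ, 0 < ε →
      Tendsto (fun n : ℕ => prob n d z (Real.exp (-ε * n))) atTop (𝓝 0) := by
  refine ⟨fun n hn => ⟨adj_nonempty n d (by omega) hn, ?_⟩, ?_, fun z hz ε hε => main d hd z hz ε hε⟩
  · rw [adj_eq]
    exact (Finset.finite_toSet _).image _
  · have hc : {z : ℂ | IsIntegral ℤ z}.Countable :=
      (Algebraic.countable ℤ ℂ).mono fun z hz => hz.isAlgebraic
    filter_upwards [hc.ae_notMem volume] with z hz ε hε
    exact main d hd z hz ε hε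

end Pool.Agent.Results.MP_9a4fa7_pr.SmallestSingularValue
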